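import Pool.Agent.Q246.EL.Tr

/-!
# The zeros of the derivatives of `Λ(E/K, s)` for elliptic curves attached to newforms of weight two

Let `E` be an elliptic curve over a number field `K` (for the problem: defined over `ℚ`), and suppose that
its L-function `L(E/K, s)` is a product of L-functions of `[K : ℚ]` newforms of weight two, with arbitrary
levels and nebentypus characters.  By modularity this is so for every elliptic curve over `ℚ` and every
abelian number field `K`, of arbitrary conductor (the newforms are the primitive forms of the twists by the
characters of `K`), for the elliptic curves over `ℚ` with complex multiplication by `F` and all fields `K ⊇ F`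
which are abelian over `F` (theta series), for the `ℚ`-curves over suitable fields.
Let `Λ(s) = A^(s/2) ((2π)^(-s) Γ(s))^[K : ℚ] L(E/K, s)`.

The Riemann hypothesis for `L(E/K, s)` implies that all zeros of all derivatives `Λ^(n)` are on the line
`Re s = 1`.  We prove, without any hypothesis: there are constants `c, C > 0` such that for every `n ≥ 0` and
every `T` the proportion of the zeros of `Λ^(n)` with imaginary part in `(0, T]` which are off the line
`Re s = 1` or multiple is at most `C exp (-c n)`, and their number is at most `C exp (-c n) T log T` (`T ≥ 2`).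

The starting file `Pool.Agent.Results.MP_fb225e_nt.DerivativesDensityAbelian` has this for `E/ℚ` and abelian
fields `K` of conductor prime to the conductor of `E`, without ramification in common.  The general case
needs the theory for newforms with nebentypus which are not twists of a form with trivial character by
characters of coprime conductor: modules `Pool.Agent.Q246.NC` (transformation laws at all cusps, mean
squares, shifted convolution sums of project GD2 of helper671 for complex coefficients, complex root
numbers); here it is applied to the Hasse-Weil L-function of `E/K`, defined by minimal models.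
-/
set_option autoImplicit false

open Complex NumberField IsDedekindDomain
open Pool.Agent.Q246.EL

namespace Pool.Agent.Results.MP_fb225e_nt.DerivativesDensity

/-- The zeros of `Λ^(n)` with imaginary part in `(0, T]`. -/
def Zer (Λ : ℂ → ℂ) (n : ℕ) (T : ℝ) : Set ℂ := {s | iteratedDeriv n Λ s = 0 ∧ 0 < s.im ∧ s.im ≤ T}

/-- The exceptional ones: off the line `Re s = 1`, or multiple. -/
def Exc (Λ : ℂ → ℂ) (n : ℕ) (T : ℝ) : Set ℂ :=
  {s | s ∈ Zer Λ n T ∧ (s.re ≠ 1 ∨ iteratedDeriv (n + 1) Λ s = 0)}

/-- The number of points of `A`, each counted with its multiplicity as a zero of `Λ^(n)`. -/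
noncomputable def num (Λ : ℂ → ℂ) (n : ℕ) (A : Set ℂ) : ℕ := ∑ᶠ s ∈ A, analyticOrderNatAt (iteratedDeriv n Λ) s

/-- **The theorem.** Let `E` be an elliptic curve over a number field `K` such that `L(E/K, s)` is the product of the
L-functions of a list of `[K : ℚ]` newforms of weight two.  Then `L(E/K, s)` and the completed L-function
`Λ = Λ(E/K, s)` exist, are unique, entire, `Λ(2 - s) = ± Λ(s)`; and there are `c, C > 0` such that for all `n ≥ 0`
and all `T` at most the proportion `C exp (-c n)` of the zeros of `Λ^(n)` with imaginary part in `(0, T]`, counted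
with multiplicity, are off the line `Re s = 1` or multiple; and for `T ≥ 2` the number of these exceptional
zeros is at most `C exp (-c n) T log T`. -/
theorem result {K : Type} [Field K] [NumberField K] (E : WeierstrassCurve K) [E.IsElliptic]
    (W : HeightOneSpectrum (𝓞 K) → WeierstrassCurve (𝓞 K)) (_hW : MinimalModels E W)
    (l : List Newform) (hl : Attached W l) :
    ∃ (A : ℕ) (L Λ : ℂ → ℂ), IsTheCompleted W A L Λ ∧
      (∀ (n : ℕ) (T : ℝ), (Zer Λ n T).Finite) ∧
      ∃ c C : ℝ, 0 < c ∧ 0 < C ∧
        (∀ (n : ℕ) (T : ℝ), (num Λ n (Exc Λ n T) : ℝ) ≤ C * Real.exp (-(c * n)) * num Λ n (Zer Λ n T)) ∧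
        (∀ (n : ℕ) (T : ℝ), 2 ≤ T →
          (num Λ n (Exc Λ n T) : ℝ) ≤ C * Real.exp (-(c * n)) * T * Real.log T) := by
  obtain ⟨A, c, Λ₀, L, hc, hF, h⟩ := exists_el hl
  obtain ⟨h1, h2⟩ := derivs1 hF hc (Λ := fun s => c * Λ₀ (s - 1 / 2)) (fun s => rfl)
  exact ⟨A, L, _, h, h1, h2⟩

end Pool.Agent.Results.MP_fb225e_nt.DerivativesDensity
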