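import Pool.Agent.Q270.GD.C12

/-!
# The Grand Lindelof Hypothesis for `GL(m)` and the number of zeros in a disc of fixed radius

`π` runs through the L-functions of cuspidal automorphic representations of `GL_m(𝔸_ℚ)` (`CuspidalL m`),
`C_π(T) = N ∏ (1 + |i T - μ_j|)` is the analytic conductor at the height `T`.  Fix `R > 0` and let `n(π, T)` be the
number of zeros of `Λ(s, π)`, counted with multiplicity, in the open disc of centre `1/2 + iT` and radius `R`.

Let `P` be any set of `π`.  The Grand Lindelof Hypothesis holds for `P` if and only if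
`n(π, T) ≥ (R / π - o(1)) log C_π(T)` as `C_π(T) → ∞`, uniformly in `π ∈ P` and `T`, and if and only if
`n(π, T) ~ (R / π) log C_π(T)` uniformly.

The equivalence is local in `T` and uniform in `π`: for all `κ > 0` there are `η > 0`, `W` such that the lower bound with
`R / π - η` for the heights in `[y - W, y + W]` gives `|L(1/2 + iy, π)| ≤ C_π(y)^κ` for large `C_π(y)`; and for all
`ε > 0` there are `κ > 0`, `W` such that `|L(1/2 + iT, π)| ≤ C_π(T)^κ` in `[y - W, y + W]` gives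
`n(π, y) = (R / π + O(ε)) log C_π(y)`.  The constant `R / π` is the largest possible, for each `π` and in each
interval of a certain length.

The same is proved for all regions `|Im s - T| < r(Re s - 1/2)` with a profile `r`, continuous at `0`, with a strict
maximum there.

Idea: as for `ζ` (`MP_4e5e8a_nt.DiscCounts`).  The explicit formula is replaced by a finite one, over a rectangle of
height `log C_π(T)`, for the functions `G⁻¹ N^{s/2} Λ(s, π)` of the library `W169.HF`, uniformly in all parameters.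
-/

set_option autoImplicit false

open Complex
open scoped ComplexConjugate

namespace Pool.Agent.Results.MP_52e316_nt.DiscCountsGLm

/-- Analytic data of a cuspidal automorphic representation of `GL_m(𝔸_ℚ)` (not the trivial one for
`m = 1`), normalised as in the problem: conductor `N`, archimedean parameters `μ_j` with `Re μ_j ≤ 1/2` and
`∑ Im μ_j = 0` (the central character is trivial on the positive reals), Satake parameters
`|α_j(p)| ≤ √p`, root number `ε`, and the entire completed L-function `Λ` (gamma factors times Euler product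
for `Re s > 3/2`) with the functional equation, finite order in vertical strips and no zeros in
`Re s > 1` (all known: Godement-Jacquet, Jacquet-Shalika). -/
structure CuspidalL (m : ℕ) where
  /-- the conductor -/
  N : ℝ
  /-- the archimedean parameters -/
  μ : Fin m → ℂ
  /-- the Satake parameters -/
  α : Fin m → ℕ → ℂ
  /-- the root number -/
  ε : ℂ
  /-- the completed L-function -/
  Λ : ℂ → ℂ
  one_le : 1 ≤ N
  re_le : ∀ j, (μ j).re ≤ 1 / 2
  normalised : ∑ j, (μ j).im = 0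
  norm_le : ∀ j, ∀ p : ℕ, p.Prime → ‖α j p‖ ≤ Real.sqrt p
  norm_eq : ‖ε‖ = 1
  entire : Differentiable ℂ Λ
  euler : ∀ s : ℂ, 3 / 2 < s.re → Λ s = (∏ j, Gammaℝ (s - μ j)) *
    ∏' p : Nat.Primes, ∏ j, (1 - α j p * (p : ℂ) ^ (-s))⁻¹
  fe : ∀ s : ℂ, Λ s = ε * (N : ℂ) ^ (1 / 2 - s) * conj (Λ (1 - conj s))
  bdd : ∀ a b : ℝ, ∃ M, ∀ s : ℂ, a ≤ s.re → s.re ≤ b → ‖Λ s‖ ≤ Real.exp (M * (1 + |s.im|))
  ne_zero : ∀ s : ℂ, 1 < s.re → Λ s ≠ 0

variable {m : ℕ}

/-- The L-function `L(s, π) = Λ(s, π) / ∏ Γ_ℝ(s - μ_j)`. -/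
noncomputable def L (π : CuspidalL m) (s : ℂ) : ℂ := π.Λ s * ∏ j, (Gammaℝ (s - π.μ j))⁻¹

/-- The analytic conductor `C_π = N ∏ (1 + |μ_j|)`. -/
noncomputable def C (π : CuspidalL m) : ℝ := π.N * ∏ j, (1 + ‖π.μ j‖)

/-- The analytic conductor at the height `t`: `C_π(t) = N ∏ (1 + |i t - μ_j|)`. -/
noncomputable def Ct (π : CuspidalL m) (t : ℝ) : ℝ := π.N * ∏ j, (1 + ‖(t : ℂ) * I - π.μ j‖)

/-- The Grand Lindelof Hypothesis for the `π` in `P`. -/
def GLH (P : CuspidalL m → Prop) : Prop :=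
  ∀ ε : ℝ, 0 < ε → ∃ B : ℝ, ∀ π : CuspidalL m, P π → ∀ t : ℝ,
    ‖L π (1 / 2 + (t : ℂ) * I)‖ ≤ B * ((1 + |t|) * C π) ^ ε

/-- `r` is positive at `0`, continuous at `0`, and at most `r 0 - η` outside of every neighbourhood of `0`, with
`η > 0` depending on the neighbourhood. -/
structure Profile (r : ℝ → ℝ) : Prop where
  pos : 0 < r 0
  cont : ContinuousAt r 0
  gap : ∀ δ : ℝ, 0 < δ → ∃ η : ℝ, 0 < η ∧ ∀ x : ℝ, δ ≤ |x| → r x ≤ r 0 - η

/-- The number of zeros `s` of `Λ(s, π)` with `|Im s - T| < r (Re s - 1/2)`, counted with multiplicity. -/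
noncomputable def zeros (r : ℝ → ℝ) (π : CuspidalL m) (T : ℝ) : ℕ :=
  ∑ᶠ s ∈ {s : ℂ | π.Λ s = 0 ∧ |s.im - T| < r (s.re - 1 / 2)}, analyticOrderNatAt π.Λ s

/-- The number of zeros of `Λ(s, π)` in the open disc of centre `1/2 + iT` and radius `R`, counted with
multiplicity. -/
noncomputable def zerosDisc (R : ℝ) (π : CuspidalL m) (T : ℝ) : ℕ :=
  ∑ᶠ s ∈ {s : ℂ | π.Λ s = 0 ∧ ‖s - (1 / 2 + T * I)‖ < R}, analyticOrderNatAt π.Λ s

/-- The five statements about a counting function `n` of a region of maximal half-height `c`. -/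
def Law (n : CuspidalL m → ℝ → ℕ) (c : ℝ) : Prop :=
  (∀ κ : ℝ, 0 < κ → ∃ η W C₀ : ℝ, 0 < η ∧ ∀ (π : CuspidalL m) (y : ℝ), C₀ ≤ Ct π y →
    (∀ T : ℝ, |T - y| ≤ W → (c / Real.pi - η) * Real.log (Ct π T) ≤ (n π T : ℝ)) →
    ‖L π (1 / 2 + (y : ℂ) * I)‖ ≤ Ct π y ^ κ) ∧
  (∀ ε : ℝ, 0 < ε → ∃ κ W C₀ : ℝ, 0 < κ ∧ ∀ (π : CuspidalL m) (y : ℝ), C₀ ≤ Ct π y →
    (∀ T : ℝ, |T - y| ≤ W → ‖L π (1 / 2 + (T : ℂ) * I)‖ ≤ Ct π T ^ κ) →
    |(n π y : ℝ) - c / Real.pi * Real.log (Ct π y)| ≤ ε * Real.log (Ct π y)) ∧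
  (∀ ε : ℝ, 0 < ε → ∃ W C₀ : ℝ, ∀ (π : CuspidalL m) (y : ℝ), C₀ ≤ Ct π y →
    ∃ T : ℝ, |T - y| ≤ W ∧ (n π T : ℝ) < (c / Real.pi + ε) * Real.log (Ct π T)) ∧
  (∀ P : CuspidalL m → Prop, GLH P ↔ ∀ ε : ℝ, 0 < ε → ∃ C₀ : ℝ, ∀ π : CuspidalL m, P π → ∀ T : ℝ,
    C₀ ≤ Ct π T → (c / Real.pi - ε) * Real.log (Ct π T) ≤ (n π T : ℝ)) ∧
  (∀ P : CuspidalL m → Prop, GLH P ↔ ∀ ε : ℝ, 0 < ε → ∃ C₀ : ℝ, ∀ π : CuspidalL m, P π → ∀ T : ℝ,
    C₀ ≤ Ct π T → |(n π T : ℝ) - c / Real.pi * Real.log (Ct π T)| ≤ ε * Real.log (Ct π T))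

open Pool.Agent.W169.HF Q270GD

lemma std (π : CuspidalL m) : Std π.N π.μ π.α π.ε π.Λ :=
  ⟨{ one_le := π.one_le
     re_le := π.re_le
     norm_le := fun j p hp => by
       rw [← Real.sqrt_eq_rpow]
       exact π.norm_le j p hp
     norm_eq := π.norm_eq
     entire := π.entire
     euler := fun s hs => π.euler s (by linarith)
     fe := π.fe
     bdd := π.bdd }, π.ne_zero⟩

lemma dt (π : CuspidalL m) : Dt π.N π.μ π.Λ := ⟨π.α, π.ε, std π⟩

lemma rpow_exp {x : ℝ} (hx : 1 ≤ x) (a : ℝ) : x ^ a = Real.exp (a * Real.log x) := by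
  rw [Real.rpow_def_of_pos (by linarith), mul_comm]

lemma Ct_one (π : CuspidalL m) (t : ℝ) : 1 ≤ Ct π t := cnd_pos π.one_le π.μ t

lemma log_ge (π : CuspidalL m) {c t : ℝ} (h : Real.exp c ≤ Ct π t) : c ≤ Real.log (Ct π t) := by
  have := Real.log_le_log (Real.exp_pos _) h
  rwa [Real.log_exp] at this

lemma ge_of_log (π : CuspidalL m) {c t : ℝ} (h : Real.log (max c 1) ≤ Real.log (Ct π t)) : c ≤ Ct π t := by
  have h1 : 0 < max c 1 := lt_max_of_lt_right one_pos
  have h2 := Ct_one π t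
  exact (le_max_left _ _).trans ((Real.log_le_log_iff h1 (by linarith)).1 h)

lemma C_one (π : CuspidalL m) (t : ℝ) : 1 ≤ (1 + |t|) * C π := by
  have h1 : 1 ≤ ∏ j, (1 + ‖π.μ j‖) := by
    refine Finset.prod_induction _ (fun x => (1 : ℝ) ≤ x) (fun a b ha hb => ?_) le_rfl fun j _ => ?_
    · nlinarith
    · linarith [norm_nonneg (π.μ j)]
  have h2 : 1 ≤ C π := by
    unfold C
    have := π.one_le
    nlinarith
  have := abs_nonneg t
  nlinarith

/-- the hypothesis in terms of the conductor at height `t` -/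
lemma glh_iff' (hm : 1 ≤ m) (P : CuspidalL m → Prop) : GLH P ↔ ∀ κ : ℝ, 0 < κ → ∃ C₀ : ℝ,
    ∀ π : CuspidalL m, P π → ∀ t : ℝ, C₀ ≤ Real.log (Ct π t) →
      ‖L π (1 / 2 + (t : ℂ) * I)‖ ≤ Real.exp (κ * Real.log (Ct π t)) := by
  have hm' : (1 : ℝ) ≤ m := by exact_mod_cast hm
  constructor
  · intro h κ hκ
    obtain ⟨B, HB⟩ := h (κ / (2 * (m + 2))) (by positivity)
    refine ⟨2 * Real.log (max B 1) / κ, fun π hP t hC => ?_⟩
    have hB : 0 < max B 1 := lt_max_of_lt_right one_pos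
    refine (HB π hP t).trans ?_
    rw [rpow_exp (C_one π t)]
    have h0 : B * Real.exp (κ / (2 * (m + 2)) * Real.log ((1 + |t|) * C π)) ≤
        Real.exp (Real.log (max B 1)) * Real.exp (κ / (2 * (m + 2)) * Real.log ((1 + |t|) * C π)) := by
      rw [Real.exp_log hB]
      exact mul_le_mul_of_nonneg_right (le_max_left _ _) (Real.exp_pos _).le
    refine h0.trans ?_
    rw [← Real.exp_add]
    apply Real.exp_le_exp.2
    have h1 := (cnd_norm π.one_le π.μ hm π.normalised t).1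
    change Real.log ((1 + |t|) * C π) ≤ (m + 2) * Real.log (Ct π t) at h1
    have h2 : κ / (2 * (m + 2)) * Real.log ((1 + |t|) * C π) ≤ κ / 2 * Real.log (Ct π t) := by
      calc _ ≤ κ / (2 * (m + 2)) * ((m + 2) * Real.log (Ct π t)) := mul_le_mul_of_nonneg_left h1 (by positivity)
        _ = _ := by field_simp
    rw [div_le_iff₀ hκ] at hC
    linarith
  · intro h ε hε
    obtain ⟨C₀, hC₀⟩ := h (ε / m) (by positivity)
    obtain ⟨B, HB⟩ := aut_triv m hm
    obtain ⟨C1, hC1⟩ : ∃ C1 : ℝ, C1 = max C₀ 0 := ⟨_, rfl⟩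
    have hC10 : 0 ≤ C1 := by rw [hC1]; exact le_max_right _ _
    refine ⟨Real.exp (|B| + C1), fun π hP t => ?_⟩
    rw [rpow_exp (C_one π t), ← Real.exp_add]
    have hlog := Real.log_nonneg (Ct_one π t)
    have hlogC := Real.log_nonneg (C_one π t)
    rcases le_or_gt C₀ (Real.log (Ct π t)) with h1 | h1
    · refine (hC₀ π hP t h1).trans (Real.exp_le_exp.2 ?_)
      have h2 := (cnd_norm π.one_le π.μ hm π.normalised t).2
      change Real.log (Ct π t) ≤ (m : ℝ) * Real.log ((1 + |t|) * C π) at h2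
      have h3 : ε / m * Real.log (Ct π t) ≤ ε * Real.log ((1 + |t|) * C π) := by
        calc _ ≤ ε / m * (m * Real.log ((1 + |t|) * C π)) := mul_le_mul_of_nonneg_left h2 (by positivity)
          _ = _ := by field_simp
      have := abs_nonneg B
      linarith
    · refine (HB π.N π.μ π.α π.ε π.Λ (std π).1 t).trans (Real.exp_le_exp.2 ?_)
      change B + 3 / 4 * Real.log (Ct π t) ≤ _
      have h2 : C₀ ≤ C1 := by rw [hC1]; exact le_max_left _ _
      have h3 := le_abs_self B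
      have h4 : 0 ≤ ε * Real.log ((1 + |t|) * C π) := by positivity
      linarith

lemma near (π : CuspidalL m) {y T W : ℝ} (hW : 0 ≤ W) (h : |T - y| ≤ W) :
    Real.log (Ct π y) ≤ Real.log (Ct π T) + m * Real.log (1 + W) := by
  have h1 := (log_near (μ := π.μ) π.one_le hW h (y := y)).1
  rw [add_sub_cancel] at h1
  exact h1

/-- For the discs of any fixed radius, and for all regions with a profile. -/
theorem result (hm : 1 ≤ m) :
    (∀ R : ℝ, 0 < R → Law (m := m) (zerosDisc R) R) ∧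
    (∀ r : ℝ → ℝ, Profile r → Law (m := m) (zeros r) (r 0)) := by
  have hm' : (1 : ℝ) ≤ m := by exact_mod_cast hm
  have h1 : ∀ r : ℝ → ℝ, Profile r → Law (m := m) (zeros r) (r 0) := by
    intro r hr
    have hr' : Q270LD.Prof r := ⟨hr.pos, hr.cont, hr.gap⟩
    have key1 : ∀ P : CuspidalL m → Prop, GLH P → ∀ ε : ℝ, 0 < ε → ∃ C₀ : ℝ, ∀ π : CuspidalL m, P π →
        ∀ T : ℝ, C₀ ≤ Ct π T → |(zeros r π T : ℝ) - r 0 / Real.pi * Real.log (Ct π T)| ≤ ε * Real.log (Ct π T) := by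
      intro P hP ε hε
      obtain ⟨κ, W, C0, hκ, hW, H⟩ := law2 hm hr' hε
      obtain ⟨C1, hC1⟩ := (glh_iff' hm P).1 hP κ hκ
      refine ⟨Real.exp (max C0 (C1 + m * Real.log (1 + W))), fun π hπ T hC => ?_⟩
      have hC' := log_ge π hC
      refine H π.N π.μ π.Λ (dt π) T ((le_max_left _ _).trans hC') fun T' hT' => hC1 π hπ T' ?_
      have h2 := near π hW hT'
      have h3 := (le_max_right C0 (C1 + m * Real.log (1 + W))).trans hC'
      linarith
    have key2 : ∀ P : CuspidalL m → Prop, (∀ ε : ℝ, 0 < ε → ∃ C₀ : ℝ, ∀ π : CuspidalL m, P π → ∀ T : ℝ,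
        C₀ ≤ Ct π T → (r 0 / Real.pi - ε) * Real.log (Ct π T) ≤ (zeros r π T : ℝ)) → GLH P := by
      intro P hP
      rw [glh_iff' hm]
      intro κ hκ
      obtain ⟨η, W, C0, hη, hW, H⟩ := law1 hm hr' hκ
      obtain ⟨C1, hC1⟩ := hP η hη
      refine ⟨max C0 (Real.log (max C1 1) + m * Real.log (1 + W)), fun π hπ t hC => ?_⟩
      refine H π.N π.μ π.Λ (dt π) t ((le_max_left _ _).trans hC) fun T hT => hC1 π hπ T (ge_of_log π ?_)
      have h2 := near π hW hT
      have h3 := (le_max_right C0 (Real.log (max C1 1) + m * Real.log (1 + W))).trans hC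
      linarith
    refine ⟨fun κ hκ => ?_, fun ε hε => ?_, fun ε hε => ?_, fun P => ⟨fun hP ε hε => ?_, key2 P⟩,
      fun P => ⟨key1 P, fun hP => key2 P fun ε hε => ?_⟩⟩
    · obtain ⟨η, W, C0, hη, hW, H⟩ := law1 hm hr' hκ
      refine ⟨η, W, Real.exp C0, hη, fun π y hC hyp => ?_⟩
      rw [rpow_exp (Ct_one π y)]
      exact H π.N π.μ π.Λ (dt π) y (log_ge π hC) hyp
    · obtain ⟨κ, W, C0, hκ, hW, H⟩ := law2 hm hr' hε
      refine ⟨κ, W, Real.exp C0, hκ, fun π y hC hyp => ?_⟩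
      refine H π.N π.μ π.Λ (dt π) y (log_ge π hC) fun T hT => ?_
      have := hyp T hT
      rwa [rpow_exp (Ct_one π T)] at this
    · obtain ⟨W, C0, hW, H⟩ := law3 hm hr' hε
      exact ⟨W, Real.exp C0, fun π y hC => H π.N π.μ π.Λ (dt π) y (log_ge π hC)⟩
    · obtain ⟨C₀, hC₀⟩ := key1 P hP ε hε
      refine ⟨C₀, fun π hπ T hC => ?_⟩
      have := (abs_le.1 (hC₀ π hπ T hC)).1
      linarith
    · obtain ⟨C₀, hC₀⟩ := hP ε hε
      refine ⟨C₀, fun π hπ T hC => ?_⟩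
      have := (abs_le.1 (hC₀ π hπ T hC)).1
      linarith
  refine ⟨fun R hR => ?_, h1⟩
  have h2 := h1 _ ⟨(Q270LD.disc_prof hR).pos, (Q270LD.disc_prof hR).cont, (Q270LD.disc_prof hR).gap⟩
  have h3 : zeros (m := m) (fun x => Real.sqrt (R ^ 2 - x ^ 2)) = zerosDisc R := by
    funext π T
    unfold zeros zerosDisc
    have : {s : ℂ | π.Λ s = 0 ∧ |s.im - T| < Real.sqrt (R ^ 2 - (s.re - 1 / 2) ^ 2)} =
        {s : ℂ | π.Λ s = 0 ∧ ‖s - (1 / 2 + T * I)‖ < R} := by
      ext s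
      exact and_congr_right fun _ => Q270LD.disc_set hR T s
    rw [this]
  have h4 : Real.sqrt (R ^ 2 - 0 ^ 2) = R := by
    rw [zero_pow (by norm_num), sub_zero, Real.sqrt_sq hR.le]
  rw [h3] at h2
  simp only [h4] at h2
  exact h2

end Pool.Agent.Results.MP_52e316_nt.DiscCountsGLm
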