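import Pool.Agent.Q260.OS.J

/-! Zero-free half-planes of the Riemann zeta function from one-sided mean values of the error for
primes in short intervals, in a single window and for a single scale of the interval lengths. -/

set_option autoImplicit false

open MeasureTheory Filter Topology Set

namespace Pool.Agent.Results.MP_5a4862_nt.OneSidedShortIntervals

/-- The total shortfall of primes in the intervals `(y, y + h]`, `x ≤ y ≤ A x`, `H ≤ h ≤ 2H`
(`Chebyshev.psi` is the weighted count of prime powers). -/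
noncomputable def shortfall (A x H : ℝ) : ℝ :=
  ∫ h in H..(2 * H), ∫ y in x..(A * x), max (h - (Chebyshev.psi (y + h) - Chebyshev.psi y)) 0

/-- The total excess of primes in the same intervals. -/
noncomputable def excess (A x H : ℝ) : ℝ :=
  ∫ h in H..(2 * H), ∫ y in x..(A * x), max (Chebyshev.psi (y + h) - Chebyshev.psi y - h) 0

/-- There is an absolute constant `A > 1` such that:
(1) if `3/4 ≤ β` and zeta has a zero with real part larger than `β`, then for all large `x` and every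
`H ≤ x` both the shortfall and the excess over `[x, A x]` are larger than `H² x ^ β`;
(2) for each `θ ≥ 3/4` the half-plane `Re s > θ` is free of zeros if and only if for every `ε > 0`, at
some arbitrarily large `x` and for some `H ≤ x`, the shortfall (the excess) is at most `H² x ^ (θ + ε)`,
and then all intervals satisfy the corresponding two-sided pointwise bound;
(3) there is a zero-free half-plane `Re s ≥ σ₀`, `σ₀ < 1`, if and only if for some `η > 0`, at some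
arbitrarily large `x` and for some `H ≤ x`, the shortfall (the excess) is at most `H² x ^ (1 - η)`. -/
theorem result : ∃ A : ℝ, 1 < A ∧
    (∀ β : ℝ, 3 / 4 ≤ β → (∃ s : ℂ, riemannZeta s = 0 ∧ β < s.re) →
      ∀ᶠ x : ℝ in atTop, ∀ H : ℝ, 0 < H → H ≤ x →
        H ^ 2 * x ^ β < shortfall A x H ∧ H ^ 2 * x ^ β < excess A x H) ∧
    (∀ θ : ℝ, 3 / 4 ≤ θ → List.TFAE [
      ∀ s : ℂ, θ < s.re → riemannZeta s ≠ 0,
      ∀ ε : ℝ, 0 < ε → ∀ᶠ x : ℝ in atTop, ∀ y ∈ Icc x (A * x), ∀ h : ℝ, 0 < h → h ≤ x →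
        |Chebyshev.psi (y + h) - Chebyshev.psi y - h| ≤ x ^ (θ + ε),
      ∀ ε : ℝ, 0 < ε → ∃ᶠ x : ℝ in atTop, ∃ H : ℝ, 0 < H ∧ H ≤ x ∧
        shortfall A x H ≤ H ^ 2 * x ^ (θ + ε),
      ∀ ε : ℝ, 0 < ε → ∃ᶠ x : ℝ in atTop, ∃ H : ℝ, 0 < H ∧ H ≤ x ∧
        excess A x H ≤ H ^ 2 * x ^ (θ + ε)]) ∧
    List.TFAE [
      ∃ σ₀ : ℝ, 1 / 2 < σ₀ ∧ σ₀ < 1 ∧ ∀ s : ℂ, σ₀ ≤ s.re → riemannZeta s ≠ 0,
      ∃ η : ℝ, 0 < η ∧ ∀ᶠ x : ℝ in atTop, ∀ H : ℝ, x ^ (1 - η) ≤ H → H ≤ x →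
        ∀ y ∈ Icc x (A * x), |Chebyshev.psi (y + H) - Chebyshev.psi y - H| ≤ H * x ^ (-η),
      ∃ η : ℝ, 0 < η ∧ ∃ᶠ x : ℝ in atTop, ∃ H : ℝ, 0 < H ∧ H ≤ x ∧
        shortfall A x H ≤ H ^ 2 * x ^ (1 - η),
      ∃ η : ℝ, 0 < η ∧ ∃ᶠ x : ℝ in atTop, ∃ H : ℝ, 0 < H ∧ H ≤ x ∧
        excess A x H ≤ H ^ 2 * x ^ (1 - η)] := by
  refine ⟨Pool.Agent.Q260.OS.A1, Pool.Agent.Q260.OS.A1_gt, ?_, ?_, ?_⟩
  · intro β hβ h
    filter_upwards [Pool.Agent.Q260.OS.dev_mean hβ h] with x hx H hH hHx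
    have h1 := hx H hH hHx 1 abs_one
    have h2 := hx H hH hHx (-1) (by simp)
    rw [Pool.Agent.Q260.OS.Df_one] at h1
    rw [Pool.Agent.Q260.OS.Df_neg] at h2
    exact ⟨h1, h2⟩
  · intro θ hθ
    have h := Pool.Agent.Q260.OS.crit hθ
    simp only [Pool.Agent.Q260.OS.MeanOne, Pool.Agent.Q260.OS.Strong, Pool.Agent.Q260.OS.Df_one,
      Pool.Agent.Q260.OS.Df_neg] at h
    exact h
  · have h := Pool.Agent.Q260.OS.crit_any
    simp only [Pool.Agent.Q260.OS.MeanOne, Pool.Agent.Q260.OS.Df_one,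
      Pool.Agent.Q260.OS.Df_neg] at h
    exact h

end Pool.Agent.Results.MP_5a4862_nt.OneSidedShortIntervals
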