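import Pool.Agent.Q286.TR.Lind2

/-!
# The Lindelöf hypothesis as a condition on the primes

Fix `γ > π/2` and a slope `τ > 0` and put `K(u) = Im (cos (γ (1 + iτ) u) / Γ(1 + (1 + iτ) u))`.  For
`σ ≥ 0` and real `t` the series

  `A(X) = ∑_n Λ(n) cos (t log n) / (n^σ log n) · K(log n / log X)`

converges absolutely for large `X` and has, unconditionally, a limit `L(σ, t)` for `X → ∞`.  We prove:
the Lindelöf hypothesis holds if and only if for all `m ≥ 3` the numbers
`L(1/2 + 1/m, k τ/m)`, `k = 1, 2, 3, …`, are `o(log k)`; and in the same way, for `1/2 ≤ β < 1`, zeta is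
`O(|t|^ε)` in `Re s > β` if and only if `L(β + 1/m, k τ/m) = o(log k)` for all `m > 1 / (1 - β)`.

Proof.  `L(σ, t)` is `π` times the number of zeros of zeta in the triangle
`|Im ρ - t| ≤ τ (Re ρ - σ)`, `Re ρ < 1`, with weights `1/2` on the sides and `arctan τ / π` at the apex,
minus `π` times the weight of the pole `1`: the means are integrals of `log ζ` along the two sides of the
triangle against kernels of Mittag-Leffler.  Jensen's formula bounds the number of zeros by the size of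
zeta, and in the other direction Backlund's argument is used in a module of the library.
-/

set_option autoImplicit false

open Filter Topology Complex Set

namespace Pool.Agent.Results.MP_4e5e8a_nt.PrimeTriangles

/-- the kernel `K(u) = Im (cos (γ (1 + iτ) u) / Γ(1 + (1 + iτ) u))` -/
noncomputable def K (γ τ u : ℝ) : ℝ :=
  (Complex.cos (γ * ((1 + τ * I) * u)) / Complex.Gamma (1 + (1 + τ * I) * u)).im

/-- the terms of the series `A` -/
noncomputable def termA (γ τ σ t X : ℝ) (n : ℕ) : ℝ :=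
  ArithmeticFunction.vonMangoldt n * Real.cos (t * Real.log n) / ((n : ℝ) ^ σ * Real.log n) *
    K γ τ (Real.log n / Real.log X)

/-- `∑_n Λ(n) cos (t log n) / (n^σ log n) · K(log n / log X)` -/
noncomputable def A (γ τ σ t X : ℝ) : ℝ := ∑' n : ℕ, termA γ τ σ t X n

/-- the Lindelöf hypothesis -/
def Lindelof : Prop := ∀ ε : ℝ, 0 < ε → ∃ C : ℝ, ∀ t : ℝ,
  ‖riemannZeta (1 / 2 + t * I)‖ ≤ C * (1 + |t|) ^ ε

/-- the Lindelöf hypothesis in the half-plane `Re s > β` -/
def LindelofRightOf (β : ℝ) : Prop := ∀ σ₀ : ℝ, β < σ₀ → ∀ ε : ℝ, 0 < ε → ∃ C : ℝ, ∀ s : ℂ,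
  σ₀ ≤ s.re → 1 ≤ |s.im| → ‖riemannZeta s‖ ≤ C * |s.im| ^ ε

open Pool.Agent.Q286.ZR Pool.Agent.Q286.RL Pool.Agent.Q286.TR

theorem K_eq (γ τ u : ℝ) : K γ τ u = kt γ τ u := by
  unfold K kt kk mu
  rw [div_eq_mul_inv]

theorem law {γ τ : ℝ} (hγ : Real.pi / 2 < γ) (hτ : 0 < τ) (σ t : ℝ) (hσ : 0 ≤ σ) :
    ∃ C X₀ : ℝ, ∀ X ≥ X₀, Summable (fun n => |termA γ τ σ t X n|) ∧
      |A γ τ σ t X - Real.pi * (zs τ (σ + t * I) - wt τ (1 - (σ + t * I)))| ≤ C / Real.log X := by
  have hsre : ((σ : ℂ) + t * I).re = σ := by simp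
  have hsim : ((σ : ℂ) + t * I).im = t := by simp
  obtain ⟨C, T₀, hC, hT₀, h⟩ := zeta_tri (s := (σ : ℂ) + t * I) (by rw [hsre]; exact hσ) hτ hγ
  refine ⟨C, Real.exp T₀, fun X hX => ?_⟩
  have hX0 : 0 < X := (Real.exp_pos _).trans_le hX
  obtain ⟨h1, h2⟩ := h (Real.log X) ((Real.le_log_iff_exp_le hX0).2 hX)
  have hA : HasSum (termA γ τ σ t X)
      (tmn dlam (zco ((σ : ℂ) + t * I)) γ τ (Real.log X)).re := by
    refine (Complex.hasSum_re h1).congr_fun fun n => ?_
    rw [Complex.re_mul_ofReal, (zco_re _ n).1, hsre, hsim]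
    unfold termA
    rw [K_eq]
    rfl
  refine ⟨hA.summable.abs, ?_⟩
  have h3 := (Complex.abs_re_le_norm _).trans h2
  rw [Complex.sub_re, Complex.ofReal_re] at h3
  unfold A
  rw [hA.tsum_eq]
  exact h3

theorem lim {γ τ : ℝ} (hγ : Real.pi / 2 < γ) (hτ : 0 < τ) (σ t : ℝ) (hσ : 0 ≤ σ) :
    Tendsto (A γ τ σ t) atTop
      (𝓝 (Real.pi * (zs τ (σ + t * I) - wt τ (1 - (σ + t * I))))) := by
  obtain ⟨C, X₀, h⟩ := law hγ hτ σ t hσ
  have h3 : Tendsto (fun X : ℝ => C / Real.log X) atTop (𝓝 0) :=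
    Real.tendsto_log_atTop.const_div_atTop C
  rw [tendsto_iff_norm_sub_tendsto_zero]
  refine squeeze_zero' (Eventually.of_forall fun _ => norm_nonneg _) ?_ h3
  filter_upwards [eventually_ge_atTop X₀] with X hX
  exact (h X hX).2

theorem pole_zero {τ σ t : ℝ} (ht : τ * (1 - σ) < |t|) : wt τ (1 - (σ + t * I)) = 0 := by
  by_contra h
  have h1 := wt_mem h
  have h2 : (1 - ((σ : ℂ) + t * I)).re = 1 - σ := by simp
  have h3 : (1 - ((σ : ℂ) + t * I)).im = -t := by simp
  rw [h2, h3, abs_neg] at h1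
  linarith

theorem zs_nonneg {τ : ℝ} (hτ : 0 < τ) (s : ℂ) : 0 ≤ zs τ s := by
  unfold zs
  exact finsum_nonneg fun z => mul_nonneg (wt_nonneg hτ _) (Nat.cast_nonneg _)

/-- the criterion in terms of the numbers of zeros -/
theorem crit {τ β : ℝ} (hτ : 0 < τ) (hβ : 1 / 2 ≤ β) (hβ1 : β < 1) :
    LindelofRightOf β ↔ ∀ m : ℕ, 0 < m → β + 1 / m < 1 →
      Tendsto (fun k : ℕ => Real.pi * (zs τ (((β + 1 / m : ℝ) : ℂ) + ((k * (τ / m) : ℝ) : ℂ) * I) -
        wt τ (1 - (((β + 1 / m : ℝ) : ℂ) + ((k * (τ / m) : ℝ) : ℂ) * I))) / Real.log k)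
        atTop (𝓝 0) := by
  have hpi := Real.pi_pos
  have hbig : ∀ m : ℕ, 0 < m → β + 1 / m < 1 → ∀ k : ℕ, m ≤ k →
      wt τ (1 - (((β + 1 / m : ℝ) : ℂ) + ((k * (τ / m) : ℝ) : ℂ) * I)) = 0 := by
    intro m hm hm1 k hk
    refine pole_zero ?_
    have hm0 : (0 : ℝ) < m := by exact_mod_cast hm
    have hk0 : (m : ℝ) ≤ k := by exact_mod_cast hk
    have h1 : τ ≤ k * (τ / m) := by
      have : τ = m * (τ / m) := by field_simp
      calc τ = m * (τ / m) := this
        _ ≤ _ := mul_le_mul_of_nonneg_right hk0 (by positivity)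
    rw [abs_of_nonneg (by positivity)]
    have h2 : 0 < β + 1 / (m : ℝ) := by positivity
    nlinarith
  constructor
  · intro h m hm hm1
    have hm0 : (0 : ℝ) < m := by exact_mod_cast hm
    rw [Metric.tendsto_atTop]
    intro ε hε
    have hσ : β < β + 1 / (m : ℝ) := by
      have : 0 < 1 / (m : ℝ) := by positivity
      linarith
    obtain ⟨T₀, hT₀⟩ := few_of_small (by linarith) h hσ hτ
      (show 0 < ε / (4 * Real.pi) by positivity)
    have hg : 0 < τ / m := by positivity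
    obtain ⟨N, hN⟩ := exists_nat_gt (max (T₀ / (τ / m)) (τ / m))
    refine ⟨max (max N m) 2, fun k hk => ?_⟩
    have k1 : N ≤ k := ((le_max_left _ _).trans (le_max_left _ _)).trans hk
    have k2 : m ≤ k := ((le_max_right _ _).trans (le_max_left _ _)).trans hk
    have k3 : 2 ≤ k := (le_max_right _ _).trans hk
    have k1' : (N : ℝ) ≤ k := by exact_mod_cast k1
    have k3' : (2 : ℝ) ≤ k := by exact_mod_cast k3
    have k4 : T₀ / (τ / m) < k := lt_of_lt_of_le ((le_max_left _ _).trans_lt hN) k1'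
    have k5 : τ / m < k := lt_of_lt_of_le ((le_max_right _ _).trans_lt hN) k1'
    rw [div_lt_iff₀ hg] at k4
    have hl : 0 < Real.log k := Real.log_pos (by linarith)
    have h1 := hT₀ (k * (τ / m)) k4.le
    have h2 : Real.log (k * (τ / m)) ≤ 2 * Real.log k := by
      have e1 : (k : ℝ) * (τ / m) ≤ (k : ℝ) ^ 2 := by nlinarith
      calc _ ≤ Real.log ((k : ℝ) ^ 2) := Real.log_le_log (by positivity) e1
        _ = _ := by rw [Real.log_pow]; push_cast; ring
    rw [hbig m hm hm1 k k2, sub_zero, Real.dist_eq, sub_zero, abs_of_nonneg (by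
      have := zs_nonneg hτ (((β + 1 / m : ℝ) : ℂ) + ((k * (τ / m) : ℝ) : ℂ) * I)
      positivity), div_lt_iff₀ hl]
    have h3 : Real.pi * (ε / (4 * Real.pi) * Real.log (k * (τ / m))) ≤
        Real.pi * (ε / (4 * Real.pi) * (2 * Real.log k)) := by
      gcongr
    have h4 : Real.pi * (ε / (4 * Real.pi) * (2 * Real.log k)) = ε / 2 * Real.log k := by
      field_simp
      ring
    have h5 := mul_le_mul_of_nonneg_left h1 hpi.le
    have h6 : 0 < ε * Real.log k := by positivity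
    linarith
  · intro h
    refine small_of_few hβ hβ1 hτ fun m hm hm1 ε hε => ?_
    obtain ⟨N, hN⟩ := (Metric.tendsto_atTop.1 (h m hm hm1)) (Real.pi * ε) (by positivity)
    refine ⟨max (max N m) 2, fun k hk => ?_⟩
    have k1 : N ≤ k := ((le_max_left _ _).trans (le_max_left _ _)).trans hk
    have k2 : m ≤ k := ((le_max_right _ _).trans (le_max_left _ _)).trans hk
    have k3 : 2 ≤ k := (le_max_right _ _).trans hk
    have k3' : (2 : ℝ) ≤ k := by exact_mod_cast k3
    have hl : 0 < Real.log k := Real.log_pos (by linarith)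
    have h1 := hN k k1
    rw [hbig m hm hm1 k k2, sub_zero, Real.dist_eq, sub_zero, abs_of_nonneg (by
      have := zs_nonneg hτ (((β + 1 / m : ℝ) : ℂ) + ((k * (τ / m) : ℝ) : ℂ) * I)
      positivity), div_lt_iff₀ hl, mul_assoc] at h1
    exact (lt_of_mul_lt_mul_left h1 hpi.le).le

/-- **Theorem.** Let `γ > π/2` and `τ > 0`.  For all `σ ≥ 0` and real `t` the series `A(X)` converges
absolutely for all large `X`, and has a limit `L(σ, t)` for `X → ∞`.

(a) For `1/2 ≤ β < 1` the Lindelöf hypothesis holds in the half-plane `Re s > β` if and only if for all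
`m ≥ 1` with `β + 1/m < 1` one has `L(β + 1/m, k τ/m) / log k → 0` for `k → ∞`.

(b) The Lindelöf hypothesis holds if and only if `L(1/2 + 1/m, k τ/m) / log k → 0` for `k → ∞`, for all
`m ≥ 3`. -/
theorem result (γ τ : ℝ) (hγ : Real.pi / 2 < γ) (hτ : 0 < τ) :
    ∃ L : ℝ → ℝ → ℝ,
      (∀ σ t : ℝ, 0 ≤ σ → (∀ᶠ X in atTop, Summable fun n => |termA γ τ σ t X n|) ∧
        Tendsto (A γ τ σ t) atTop (𝓝 (L σ t))) ∧
      (∀ β : ℝ, 1 / 2 ≤ β → β < 1 → (LindelofRightOf β ↔ ∀ m : ℕ, 0 < m → β + 1 / m < 1 →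
        Tendsto (fun k : ℕ => L (β + 1 / m) (k * (τ / m)) / Real.log k) atTop (𝓝 0))) ∧
      (Lindelof ↔ ∀ m : ℕ, 3 ≤ m →
        Tendsto (fun k : ℕ => L (1 / 2 + 1 / m) (k * (τ / m)) / Real.log k) atTop (𝓝 0)) := by
  refine ⟨fun σ t => Real.pi * (zs τ (σ + t * I) - wt τ (1 - (σ + t * I))), fun σ t hσ =>
    ⟨?_, lim hγ hτ σ t hσ⟩, fun β hβ hβ1 => crit hτ hβ hβ1, ?_⟩
  · obtain ⟨C, X₀, h⟩ := law hγ hτ σ t hσ
    filter_upwards [eventually_ge_atTop X₀] with X hX
    exact (h X hX).1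
  · have h1 : Lindelof ↔ LindelofRightOf (1 / 2) := lind_iff
    rw [h1, crit hτ le_rfl (by norm_num)]
    refine forall_congr' fun m => ?_
    constructor
    · intro h hm
      have hm0 : (3 : ℝ) ≤ m := by exact_mod_cast hm
      refine h (by omega) ?_
      have : 1 / (m : ℝ) ≤ 1 / 3 := one_div_le_one_div_of_le (by norm_num) hm0
      linarith
    · intro h hm hm1
      refine h ?_
      by_contra hc
      have hm2 : m ≤ 2 := by omega
      have hm3 : (m : ℝ) ≤ 2 := by exact_mod_cast hm2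
      have hm4 : (0 : ℝ) < m := by exact_mod_cast hm
      have : 1 / 2 ≤ 1 / (m : ℝ) := one_div_le_one_div_of_le hm4 hm3
      linarith

end Pool.Agent.Results.MP_4e5e8a_nt.PrimeTriangles
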