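import Pool.Agent.Q246.SA.EQ

/-!
# The averages `Λ(E, s + h) + u Λ(E, s - h)`: the Riemann hypothesis up to `T^(1 - c h)` zeros

`E : y² = x³ + a x + b` is an elliptic curve over `ℚ` of conductor `N`, `Λ(s) = Λ(E, s)` its completed
L-function, `h > 0` and `|u| = 1`.  Put

  `Λ_(h,u)(s) = Λ(s + h) + u Λ(s - h)`,

so that `Λ_(h,u)` satisfies the same functional equation as `Λ` up to a constant and `Λ_(h,1) → 2 Λ` for
`h → 0`.  If the Riemann hypothesis holds for `L(E, s)`, then for all `h > 0` all zeros of `Λ_(h,u)` are simple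
and on the line `Re s = 1` (de Bruijn), and this is known without hypothesis for `h > 1/2` only (for the
Riemann zeta function: Taylor 1945, Lagarias 2005).

We prove, for all `h > 0` and with no hypothesis: almost all zeros of `Λ_(h,u)` are simple and on the line.
More precisely: for every `c < 1` there is a constant `C` such that for all `T ≥ 2`, all `u` and all `h` between
`1 / log T` (the mean distance of the zeros, up to a factor) and `1` at most the proportion
`C T^(-c h) log T` of the zeros with imaginary part in `(0, T]` are multiple or not on the line, and their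
number is at most `C T^(1 - c h) log² T`.  So this set is already negligible for `h = 2 log log T / log T`.

Proof (modules `Pool.Agent.Q246.SA`).  `X(z) = v Λ(1 + z)` with a suitable constant `v` is symmetric about the
imaginary axis, and a limit of polynomials whose zeros are zeros of `X` or on the axis.  Hence
`|X(x + h + iy)| > |X(x - h + iy)|` for `x > 0` if every zero `β + iγ` of `X` satisfies
`β² < x² + h² + (y - γ)²`, and a zero of `Λ_(h,u)` at height `y` which is not on the line, or multiple, is close to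
a zero of `Λ` at distance at least `h` from the line.  The number of these is `O(T^(1 - c h) log T)`, by the
starting project on the zero density for newforms, and near each of them there are `O(log T)` zeros of `Λ_(h,u)`,
by Jensen's formula, uniformly in `h`.
-/

set_option autoImplicit false

open Complex UpperHalfPlane MatrixGroups CongruenceSubgroup

namespace Pool.Agent.Results.MP_553913_nt.ShiftAverages

/-- The coefficient `a_p` of `E : y² = x³ + a x + b` at a prime `p ∤ 2 (4a³ + 27b²)`: `p` minus the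
number of pairs `(x, y)` modulo `p` with `y² ≡ x³ + a x + b (mod p)`. -/
noncomputable def ap (a b : ℤ) (p : ℕ) : ℤ :=
  (p : ℤ) - (((Finset.range p ×ˢ Finset.range p).filter
    (fun xy : ℕ × ℕ => (p : ℤ) ∣ (xy.2 : ℤ) ^ 2 -
      ((xy.1 : ℤ) ^ 3 + a * (xy.1 : ℤ) + b))).card : ℤ)

/-- The `n`-th Fourier coefficient of `f`. -/
noncomputable def coef {N : ℕ} (f : CuspForm (Gamma0 N : Subgroup (GL (Fin 2) ℝ)) 2) (n : ℕ) : ℂ :=
  (qExpansion 1 f).coeff n

/-- `f ∈ S_2(Γ₀(N))` is the newform of the elliptic curve `E : y² = x³ + a x + b` of conductor `N` and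
root number `w`: the Fourier coefficients `c(n)` of `f` are real with `c(1) = 1`, they satisfy the
Hecke relations `c(mn) = c(m) c(n)` for coprime `m`, `n` and `c(p^(j+2)) = c(p) c(p^(j+1)) - p c(p^j)`
(without the last term if `p ∣ N`), `f(-1/(Nτ)) = -w N τ² f(τ)`, `c(p) = a_p(E)` for all primes
`p ∤ 2 (4a³ + 27b²)`, `|c(p)| ≤ 2 √p` for all `p ∤ N` (Hasse) and `c(p) = 0, 1, -1` for `p ∣ N`. -/
structure IsFormOf (a b : ℤ) (N : ℕ) (f : CuspForm (Gamma0 N : Subgroup (GL (Fin 2) ℝ)) 2) (w : ℝ) :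
    Prop where
  one : coef f 1 = 1
  real : ∀ n, (coef f n).im = 0
  mul : ∀ m n : ℕ, Nat.Coprime m n → coef f (m * n) = coef f m * coef f n
  pow : ∀ p j : ℕ, p.Prime → coef f (p ^ (j + 2)) = coef f p * coef f (p ^ (j + 1)) -
      (if p ∣ N then 0 else (p : ℂ) * coef f (p ^ j))
  sign : w = 1 ∨ w = -1
  fricke : ∀ τ τ' : ℍ, (τ' : ℂ) * ((N : ℂ) * (τ : ℂ)) = -1 →
    f τ' = -(w : ℂ) * (N : ℂ) * (τ : ℂ) ^ 2 * f τ
  points : ∀ p : ℕ, p.Prime → ¬ (p : ℤ) ∣ 2 * (4 * a ^ 3 + 27 * b ^ 2) → coef f p = (ap a b p : ℂ)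
  good : ∀ p : ℕ, p.Prime → ¬ p ∣ N → ‖coef f p‖ ≤ 2 * Real.sqrt p
  bad : ∀ p : ℕ, p.Prime → p ∣ N → coef f p = 0 ∨ coef f p = 1 ∨ coef f p = -1

/-- `Λ` is the completed L-function of `f`: it is entire and
`Λ(s) = N^(s/2) (2π)^(-s) Γ(s) ∑ c(n) n^(-s)` for `Re s > 2`. -/
def IsCompleted {N : ℕ} (f : CuspForm (Gamma0 N : Subgroup (GL (Fin 2) ℝ)) 2) (Λ : ℂ → ℂ) : Prop :=
  Differentiable ℂ Λ ∧ ∀ s : ℂ, 2 < s.re →
    Λ s = ((Real.sqrt N / (2 * Real.pi) : ℝ) : ℂ) ^ s * Complex.Gamma s *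
      ∑' n : ℕ, coef f (n + 1) * ((n + 1 : ℕ) : ℂ) ^ (-s)

/-- The average `Λ_(h,u)(s) = Λ(s + h) + u Λ(s - h)`. -/
noncomputable def avg (Λ : ℂ → ℂ) (h : ℝ) (u : ℂ) (s : ℂ) : ℂ := Λ (s + h) + u * Λ (s - h)

/-- The zeros of `F` with imaginary part in `(0, T]`. -/
def Zer (F : ℂ → ℂ) (T : ℝ) : Set ℂ := {s | F s = 0 ∧ 0 < s.im ∧ s.im ≤ T}

/-- The exceptional ones: off the line `Re s = 1`, or multiple. -/
def Exc (F : ℂ → ℂ) (T : ℝ) : Set ℂ := {s | s ∈ Zer F T ∧ (s.re ≠ 1 ∨ deriv F s = 0)}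

/-- The number of points of `A`, each counted with its multiplicity as a zero of `F`. -/
noncomputable def num (F : ℂ → ℂ) (A : Set ℂ) : ℕ := ∑ᶠ s ∈ A, analyticOrderNatAt F s

/-- **Main theorem.** Let `E : y² = x³ + a x + b` be an elliptic curve over `ℚ`, and `Λ` its completed
L-function.
(1) If `h > 1/2`, or if `h > 0` and all zeros of `Λ` are on the line `Re s = 1`, then all zeros of `Λ_(h,u)`,
`|u| = 1`, are simple and on this line.
(2) For every `c < 1` there is `C` such that for all `T ≥ 2`, `|u| = 1` and `1 / log T ≤ h ≤ 1` the number of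
the zeros of `Λ_(h,u)` with imaginary part in `(0, T]` which are off the line or multiple, counted with
multiplicity, is at most `C T^(-c h) log T` times the number of all zeros with imaginary part in `(0, T]`, and
at most `C T^(1 - c h) log² T`. -/
theorem result (a b : ℤ) (N : ℕ) [NeZero N] (f : CuspForm (Gamma0 N : Subgroup (GL (Fin 2) ℝ)) 2) (w : ℝ)
    (_ : 4 * a ^ 3 + 27 * b ^ 2 ≠ 0) (hf : IsFormOf a b N f w) :
    ∃ Λ : ℂ → ℂ, IsCompleted f Λ ∧ (∀ Λ', IsCompleted f Λ' → Λ' = Λ) ∧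
      (∀ s : ℂ, Λ (2 - s) = (w : ℂ) * Λ s) ∧
      (∀ (h : ℝ) (u : ℂ), (1 / 2 < h ∨ (0 < h ∧ ∀ s : ℂ, Λ s = 0 → s.re = 1)) → ‖u‖ = 1 →
        ∀ s : ℂ, avg Λ h u s = 0 → s.re = 1 ∧ deriv (avg Λ h u) s ≠ 0) ∧
      (∀ (h : ℝ) (u : ℂ) (T : ℝ), 0 < h → ‖u‖ = 1 → (Zer (avg Λ h u) T).Finite) ∧
      ∀ c : ℝ, c < 1 → ∃ C : ℝ, 0 < C ∧ ∀ (h T : ℝ) (u : ℂ), 2 ≤ T → 1 / Real.log T ≤ h → h ≤ 1 → ‖u‖ = 1 →
        (num (avg Λ h u) (Exc (avg Λ h u) T) : ℝ) ≤
          C * T ^ (-(c * h)) * Real.log T * num (avg Λ h u) (Zer (avg Λ h u) T) ∧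
        (num (avg Λ h u) (Exc (avg Λ h u) T) : ℝ) ≤ C * T ^ (1 - c * h) * Real.log T ^ 2 := by
  have hf' : Pool.Agent.W169.HF.IsForm N f w :=
    { one := hf.one
      real := hf.real
      mul := hf.mul
      pow := hf.pow
      sign := hf.sign
      fricke := hf.fricke
      good := hf.good
      bad := fun p hp hpN => by
        have h1 : (1 : ℝ) ≤ Real.sqrt p := by
          rw [Real.one_le_sqrt]
          exact_mod_cast hp.one_le
        have h2 : ‖coef f p‖ ≤ 1 := by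
          rcases hf.bad p hp hpN with h | h | h <;> simp [h]
        exact h2.trans h1 }
  obtain ⟨Λ, hΛ, hfe, -, -⟩ := Pool.Agent.W174.HF.nf1 N f w hf'
  obtain ⟨h1, h2, h3⟩ := Pool.Agent.Q246.SA.shifts_ec hf' hΛ
  exact ⟨Λ, hΛ, fun Λ' h' => Pool.Agent.W169.HF.completed_unique h' hΛ, hfe, h1, h2, h3⟩

end Pool.Agent.Results.MP_553913_nt.ShiftAverages
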